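import Pool.Agent.V11167.PcgC

/-!
# Almost all convex geometries are primitive (labelled and unlabelled)
-/

namespace Pool.Agent.Results.MP_0c861e_co.AlmostAllPrimitive

open Filter Topology Pool.Agent.V11167.Pcg

/-- The proportion of primitive convex geometries tends to one, both among the convex geometries on
the labelled set `Fin n` (Q1) and among isomorphism classes of convex geometries on `n` elements
(Q2). -/
theorem result :
    Tendsto (fun n : ℕ => (Lpr n : ℝ) / (L n : ℝ)) atTop (𝓝 1) ∧
    Tendsto (fun n : ℕ => (Upr n : ℝ) / (U n : ℝ)) atTop (𝓝 1) :=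
  ⟨labelled, unlabelled⟩

end Pool.Agent.Results.MP_0c861e_co.AlmostAllPrimitive
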